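import Mathlib
import Pool.Agent.V11122.Dom3Cw
import Pool.Agent.V11122.Dom4

set_option autoImplicit false

/-! Graphs of clique-width at most `t` are DOM-bounded if and only if `t ≤ 3`. -/

namespace Pool.Agent.Results.MP_21a028_co.DomBoundedIff

open Pool.Agent.H175R2 Pool.Agent.V11122

/-- The vertex set can be partitioned into `k` dominating sets (the sets `f ⁻¹ i`). -/
def HasDomaticPartition {V : Type} (G : SimpleGraph V) (k : ℕ) : Prop :=
  ∃ f : V → Fin k, ∀ i v, ∃ w, f w = i ∧ (w = v ∨ G.Adj v w)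

/-- The domatic number (for finite nonempty graphs). -/
noncomputable def domaticNumber {V : Type} (G : SimpleGraph V) : ℕ :=
  sSup {k | HasDomaticPartition G k}

/-- A class of graphs is DOM-bounded: for every `c` there is `d` such that every (finite, nonempty)
graph of the class with minimum degree at least `d` has domatic number larger than `c`. -/
def DomBounded (C : ∀ V : Type, SimpleGraph V → Prop) : Prop :=
  ∀ c : ℕ, ∃ d : ℕ, ∀ (V : Type) [Finite V] [Nonempty V] (G : SimpleGraph V), C V G →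
    (∀ v, d ≤ (G.neighborSet v).ncard) → c < domaticNumber G

theorem le_card {V : Type} [Finite V] [Nonempty V] {G : SimpleGraph V} {k : ℕ}
    (h : HasDomaticPartition G k) : k ≤ Nat.card V := by
  obtain ⟨f, hf⟩ := h
  have hs : Function.Surjective f := by
    intro i
    obtain ⟨w, hw, -⟩ := hf i (Classical.arbitrary V)
    exact ⟨w, hw⟩
  have := Nat.card_le_card_of_surjective f hs
  simpa using this

theorem le_domaticNumber {V : Type} [Finite V] [Nonempty V] {G : SimpleGraph V} {k : ℕ}
    (h : HasDomaticPartition G k) : k ≤ domaticNumber G :=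
  le_csSup ⟨Nat.card V, fun _ hk => le_card hk⟩ h

theorem mono {V : Type} {G : SimpleGraph V} {k m : ℕ} (hm : 0 < m) (hmk : m ≤ k)
    (h : HasDomaticPartition G k) : HasDomaticPartition G m := by
  obtain ⟨f, hf⟩ := h
  refine ⟨fun v => ⟨min (f v).1 (m - 1), by omega⟩, ?_⟩
  intro i v
  obtain ⟨w, hw, hw2⟩ := hf ⟨i.1, by omega⟩ v
  refine ⟨w, ?_, hw2⟩
  apply Fin.ext
  have : (f w).1 = i.1 := by rw [hw]
  simp only [this]
  omega

theorem bounded {t : ℕ} (ht : t ≤ 3) : DomBounded (fun _ G => cliqueWidth G ≤ t) := by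
  intro c
  refine ⟨26 * (c + 1) ^ 2 + 12 * (c + 1) + 1, ?_⟩
  intro V _ _ G hG hdeg
  obtain ⟨f, hf⟩ := Dom3.coloring_of_cw G (hG.trans ht) (Nat.succ_pos c)
    (fun v => Nat.lt_of_succ_le (hdeg v))
  apply le_domaticNumber
  refine ⟨f, ?_⟩
  intro i v
  obtain ⟨w, h1, h2⟩ := hf i v
  exact ⟨w, h1, Or.inr h2⟩

theorem not_bounded {t : ℕ} (ht : 4 ≤ t) : ¬ DomBounded (fun _ G => cliqueWidth G ≤ t) := by
  intro h
  obtain ⟨d, hd⟩ := h 3
  obtain ⟨V, G, hV, hne, hcw, hdeg, hno⟩ := Dom4.exists_bad (d + 1) (by omega)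
  have h1 : cliqueWidth G ≤ t := (Nat.sInf_le hcw).trans ht
  have h2 := hd V G h1 (fun v => (Nat.le_succ d).trans (hdeg v))
  have hmem : HasDomaticPartition G (domaticNumber G) := by
    apply Nat.sSup_mem (s := {k | HasDomaticPartition G k})
    · refine ⟨1, fun _ => 0, ?_⟩
      intro i v
      exact ⟨v, Subsingleton.elim _ _, Or.inl rfl⟩
    · exact ⟨Nat.card V, fun _ hk => le_card hk⟩
  exact hno (mono (by omega) h2 hmem)

/-- The class of graphs of clique-width at most `t` is DOM-bounded if and only if `t ≤ 3`.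
Moreover, a graph of clique-width at most 3 whose degrees are all larger than `26 c² + 12 c` can be
partitioned into `c` total dominating sets, and for every `δ` there is a graph of clique-width at
most 4 with minimum degree at least `δ` and domatic number at most 3. -/
theorem result :
    (∀ t : ℕ, DomBounded (fun _ G => cliqueWidth G ≤ t) ↔ t ≤ 3) ∧
    (∀ (c : ℕ), 0 < c → ∀ (V : Type) [Finite V] [Nonempty V] (G : SimpleGraph V),
      cliqueWidth G ≤ 3 → (∀ v, 26 * c ^ 2 + 12 * c < (G.neighborSet v).ncard) →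
      ∃ f : V → Fin c, ∀ i v, ∃ w, f w = i ∧ G.Adj v w) ∧
    (∀ δ : ℕ, ∃ (V : Type) (G : SimpleGraph V), Finite V ∧ Nonempty V ∧ cliqueWidth G ≤ 4 ∧
      (∀ v, δ ≤ (G.neighborSet v).ncard) ∧ domaticNumber G ≤ 3) := by
  refine ⟨?_, ?_, ?_⟩
  · intro t
    constructor
    · intro h
      by_contra hcon
      exact not_bounded (by omega) h
    · exact bounded
  · intro c hc V _ _ G hG hdeg
    exact Dom3.coloring_of_cw G hG hc hdeg
  · intro δ
    obtain ⟨V, G, hV, hne, hcw, hdeg, hno⟩ := Dom4.exists_bad (δ + 1) (by omega)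
    refine ⟨V, G, hV, hne, Nat.sInf_le hcw, fun v => (Nat.le_succ δ).trans (hdeg v), ?_⟩
    by_contra hcon
    have hmem : HasDomaticPartition G (domaticNumber G) := by
      apply Nat.sSup_mem (s := {k | HasDomaticPartition G k})
      · refine ⟨1, fun _ => 0, ?_⟩
        intro i v
        exact ⟨v, Subsingleton.elim _ _, Or.inl rfl⟩
      · exact ⟨Nat.card V, fun _ hk => le_card hk⟩
    exact hno (mono (by omega) (by omega) hmem)

end Pool.Agent.Results.MP_21a028_co.DomBoundedIff
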